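import Mathlib
import Pool.Agent.H424.QG.Tot

/-!
# Generic cuspidal representations of `GSp_4` and `GL_4`: `θ_v < ϑ` at almost all places, for every `ϑ > 0`

Let `K` be a number field and `π` a globally generic unitary cuspidal automorphic representation of `GSp_4` (for instance
of `PGSp_4 = SO_5`) over `K`, or a unitary cuspidal representation of `GL_4`. Let `Π` be its lift to `GL_4`,
`Σ` the exterior square lift of `Π` to `GL_6` (Kim), and let `α_{i,v}`, `i = 1, ..., 4`, be the Satake parameters of `Π_v` at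
the places `v` outside a finite set `S`; `π_v` is tempered iff `θ_v = max_i |log_{N v} |α_{i,v}|| = 0`. We show for all
`x ≥ 2`, with a constant `A` which depends only on `K`:

  `∑_{N v ≤ x} (N v)^{-(1 - 2 θ_v)} ≤ A (log (2 C) + log log (3 x))`,

where `C` is the product of the analytic conductors of `L(s, Π × Π~)` and `L(s, Σ × Σ~)`. So at most
`A x^{1 - 2 ϑ} (log (2 C) + log log (3 x))` places `v` with `N v ≤ x` have `θ_v ≥ ϑ`; **for every `ϑ > 0` the bound
`θ_v < ϑ` holds at almost all places**, and this uniformly in `π`, from a power of the logarithm of the conductor on: for all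
`γ > 1 / (2 ϑ)` and `ε > 0` there is `B` such that for all `π` and all `x ≥ B (log (2 C))^γ` at most `ε x / log x` places `v`
with `N v ≤ x` have `θ_v ≥ ϑ`.

The bound known at all places is `θ_v ≤ 9/22` (Blomer, Brumley). The Rankin-Selberg `L`-function of `Π` alone gives the
bound at almost all places only for `ϑ > 1/4`: if two Satake parameters are `p^ϑ` and `-p^ϑ`, then the trace may be small, and
one has to use the traces of the squares, with the weights `p^{-2}` (`MP_fa98d2_nt.AlmostAllPrimes`). Here the exterior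
square replaces them. The local lemma: if `a_1, ..., a_4` are the parameters of a unitary representation and
`R = |a_i| ≥ 2`, then `|e_1(a)| ≥ R / 4` or `|e_2(a)| ≥ R / 4`, since `|e_3| = |e_1|` and `|e_4| = 1` in
`a_i^4 - e_1 a_i^3 + e_2 a_i^2 - e_3 a_i + e_4 = 0`.

The structure `Isobaric` lists what is used of `Π` and of `Σ`; it is known for isobaric sums of unitary cuspidal
representations, no two of which differ by a twist `|det|^{it}`, `t ≠ 0`: the bounds of Jacquet and Shalika at all places;
the logarithms of the local factors `L(s, Π_v × Π~_v)` at `v ∈ S` have nonnegative coefficients (Hoffstein and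
Ramakrishnan, Rudnick and Sarnak); `L(s, Π × Π~)` is entire except for a pole at `s = 1`, of order `r`, of polynomial growth
in vertical strips, and satisfies its functional equation (Jacquet, Piatetski-Shapiro, Shalika; Moeglin, Waldspurger).
The convergence for `Re s > 1` is not assumed; it follows by Landau's lemma. The bound for `L(1 + δ)`, uniform in the
representation, is obtained from the functional equation and the Phragmen-Lindelof principle, and all coefficients of the
logarithms are nonnegative. Take `δ = 1 / log (3 x)`.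
-/

set_option autoImplicit false

namespace Pool.Agent.Results.MP_08cfa9_nt.AlmostAllPlacesGSp4

open NumberField IsDedekindDomain
open Pool.Agent.H424.QG

/-- **Bounds towards the Ramanujan conjecture for `GSp_4` and `GL_4` at almost all places, for every `ϑ > 0`.** -/
theorem result (K : Type) [Field K] [NumberField K] :
    (∃ A : ℝ, 0 < A ∧ ∀ (S : Finset (HeightOneSpectrum (𝓞 K))) (α : Pl S → Fin 4 → ℂ)
      (β : HeightOneSpectrum (𝓞 K) → Fin (4 ^ 2) → ℂ) (κ : Fin (4 ^ 2 * Module.finrank ℚ K) → ℂ) (Q : ℝ) (r : ℕ)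
      (β' : HeightOneSpectrum (𝓞 K) → Fin (6 ^ 2) → ℂ) (κ' : Fin (6 ^ 2 * Module.finrank ℚ K) → ℂ) (Q' : ℝ) (r' : ℕ),
      Isobaric S α β κ Q r → Isobaric S (fun v => ext (α v)) β' κ' Q' r' → (∀ v, Unitary (α v)) →
      ∀ x : ℝ, 2 ≤ x →
        (∑' v : Pl S, if (nv v.1 : ℝ) ≤ x then (nv v.1 : ℝ) ^ (-(1 - 2 * expo (nv v.1 : ℝ) (α v))) else 0) ≤
          A * (Real.log (2 * (cond κ Q * cond κ' Q')) + Real.log (Real.log (3 * x)))) ∧
    ∀ ϑ γ ε : ℝ, 0 < ϑ → ϑ ≤ 1 / 2 → 1 / (2 * ϑ) < γ → 0 < ε → ∃ B : ℝ, 0 < B ∧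
      ∀ (S : Finset (HeightOneSpectrum (𝓞 K))) (α : Pl S → Fin 4 → ℂ)
      (β : HeightOneSpectrum (𝓞 K) → Fin (4 ^ 2) → ℂ) (κ : Fin (4 ^ 2 * Module.finrank ℚ K) → ℂ) (Q : ℝ) (r : ℕ)
      (β' : HeightOneSpectrum (𝓞 K) → Fin (6 ^ 2) → ℂ) (κ' : Fin (6 ^ 2 * Module.finrank ℚ K) → ℂ) (Q' : ℝ) (r' : ℕ),
      Isobaric S α β κ Q r → Isobaric S (fun v => ext (α v)) β' κ' Q' r' → (∀ v, Unitary (α v)) →
      ∀ x : ℝ, B * Real.log (2 * (cond κ Q * cond κ' Q')) ^ γ ≤ x →
        (({v : Pl S | (nv v.1 : ℝ) ≤ x ∧ ϑ ≤ expo (nv v.1 : ℝ) (α v)}.ncard : ℕ) : ℝ) ≤ ε * (x / Real.log x) :=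
  Pool.Agent.H424.QG.final K

end Pool.Agent.Results.MP_08cfa9_nt.AlmostAllPlacesGSp4
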