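import Mathlib
import Pool.Agent.H406.GLL.GL4

/-!
# Generic cusp forms on `PGSp_4`: the least prime at which the component is tempered or of the first kind

Let `π` be a globally generic cuspidal automorphic representation of `PGSp_4 = SO_5` over `ℚ`, unramified at all
primes and spherical at the real place. It has a functorial lift `Π` to `GL_4` (Cogdell, Kim, Piatetski-Shapiro,
Shahidi; Asgari, Shahidi) with Satake parameters `α_{i,p}`, `α_{i,p} α_{3-i,p} = 1`, and Langlands parameters `μ_i` at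
the real place, and a lift `Π₅` to `GL_5`, `∧² Π = Π₅ ⊞ 1` (Kim), with the parameters `1`, `α_{i,p} α_{j,p}`,
`j ≠ 3 - i`, and `0`, `μ_i + μ_j`. We assume that `Π` and `Π₅` are cuspidal.

A parameter `α` of `π_p` with `|α| > 1` is of the second kind if `α²` is a positive real number, and of the first kind
otherwise; then the parameters are `α`, `1 / α` and the complex conjugates. Let `C₁ = ∏_{i,j} (1 + |μ_i - μ_j|)`, and
let `C₂` be the same product for `Π₅`. We show: for every `ε > 0` there is a constant `A`, depending only on `ε`, such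
that for every such `π` there is a prime

  `p ≤ A (C₁² C₂)^{1+ε}`

at which `π_p` is tempered, or is of the first kind with all `|α_{i,p}| < 1.516`.

The structure `SphericalCuspForm` (starting file `Pool.Agent.TH949.RES.PGL`) lists what is used of `Π` and `Π₅`
besides the bounds of Jacquet and Shalika: the local components are unitary; the Rankin-Selberg series converges
absolutely for `Re s > 1`; `L(s, Π × Π~)` is entire except for a simple pole at `s = 1`, of polynomial growth in
vertical strips (not assumed to be uniform), and it satisfies the functional equation.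

The proof: the uniform version of Landau's theorem `Pool.Agent.TH949.UL.euler_abs` for
`F(s) = L(s, Π × Π~)² L(s, Π₅ × Π₅~) / ζ(s)³`, whose poles are zeros of `ζ`, gives a prime power
`p^k ≤ A (C₁² C₂)^{1+ε}` with `2 |t|² + |u|² < 3`, where `t` and `u` are the sums of the `k`-th powers of the parameters
of `Π` and `Π₅`. If `|α_{i,p}|^k = ρ > 1` and `P = ρ + 1 / ρ`, one has `P² - 1 ≤ |u| + P |t|` for the second kind,
which by Cauchy's inequality contradicts `P ≥ 2`, and `u ≥ P² - 3` for the first kind, so that `P² < 3 + √3`.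
-/

set_option autoImplicit false

namespace Pool.Agent.Results.MP_08cfa9_nt.LeastPrimeGSp4

open Pool.Agent.TH949.RES

/-- the Satake parameters of the five-dimensional lift -/
noncomputable def lift5 (a : Fin 4 → ℂ) : Fin 5 → ℂ := ![a 0 * a 1, a 0 * a 2, 1, a 1 * a 3, a 2 * a 3]

/-- the Langlands parameters of the five-dimensional lift -/
def lift5R (m : Fin 4 → ℂ) : Fin 5 → ℂ := ![m 0 + m 1, m 0 + m 2, 0, m 1 + m 3, m 2 + m 3]

/-- the factor `∏_{i,j} (1 + |μ_i - μ_j|)` of the analytic conductor -/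
noncomputable def cond {n : ℕ} (μ : Fin n → ℂ) : ℝ := ∏ i, ∏ j, (1 + ‖μ i - μ j‖)

/-- what is used of a spherical cusp form on `PGL_n` with the bounds of Jacquet and Shalika -/
def Form {n : ℕ} (α : Nat.Primes → Fin n → ℂ) (μ : Fin n → ℂ) : Prop :=
  SphericalCuspForm α μ ∧ (∀ (p : Nat.Primes) i, ‖α p i‖ < ((p : ℕ) : ℝ) ^ (1 / 2 : ℝ)) ∧
    ∀ i, |(μ i).re| < 1 / 2

theorem lift5_eq (a : Fin 4 → ℂ) : lift5 a = Pool.Agent.H406.GLF.std5 a 1 := by
  unfold lift5 Pool.Agent.H406.GLF.std5
  simp

/-- **The least prime at which a generic cusp form on `PGSp_4` is tempered or of the first kind.** -/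
theorem result {ε : ℝ} (hε : 0 < ε) :
    ∃ A : ℝ, 0 < A ∧ ∀ (α : Nat.Primes → Fin 4 → ℂ) (μ : Fin 4 → ℂ),
      (∀ p i, α p i * α p (Fin.rev i) = 1) → Form α μ → Form (fun p => lift5 (α p)) (lift5R μ) →
      ∃ p : Nat.Primes, ((p : ℕ) : ℝ) ≤ A * (cond μ ^ 2 * cond (lift5R μ)) ^ (1 + ε) ∧
        ∀ i, ‖α p i‖ < 1516 / 1000 ∧ (1 < ‖α p i‖ → ¬ ∃ ρ : ℝ, 0 < ρ ∧ α p i ^ 2 = ρ) := by
  obtain ⟨A, hA0, hA⟩ := Pool.Agent.H406.GLL.sp4_least hε
  refine ⟨A, hA0, fun α μ hsy h h' => ?_⟩
  have e : (fun p => lift5 (α p)) = fun p => Pool.Agent.H406.GLF.std5 (α p) 1 := by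
    funext p
    exact lift5_eq (α p)
  rw [e] at h'
  obtain ⟨p, hp, hpr⟩ := hA α μ (fun p => ⟨norm_one, hsy p⟩) h.1 h'.1 h.2.1 h.2.2 h'.2.1 h'.2.2
  refine ⟨p, hp, fun i => ⟨?_, fun hi => (hpr i hi).1⟩⟩
  rcases lt_or_ge 1 ‖α p i‖ with hi | hi
  · exact (hpr i hi).2
  · linarith

end Pool.Agent.Results.MP_08cfa9_nt.LeastPrimeGSp4
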